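import Pool.Agent.Run7.h567.PD.Iface

/-! Project PD (helper567), piece FOUR: dimension four. -/

set_option autoImplicit false

namespace Run7.h68.PD

open Matrix Run7.h567.GO Run7.h567.PD

variable {Γ : Type} [Group Γ] {E : Type} [Field E]

/-- a stable line gives a character -/
theorem eigvec_of {n : ℕ} (T : MRep Γ E n) (v : Fin n → E) (hv : v ≠ 0)
    (h : ∀ g, ∃ c : E, T g *ᵥ v = c • v) : HasEigvec T := by
  choose c hc using h
  have huniq : ∀ a b : E, a • v = b • v → a = b := fun a b hab => smul_left_injective E hv hab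
  refine ⟨⟨⟨c, ?_⟩, ?_⟩, v, hv, hc⟩
  · apply huniq
    rw [← hc, map_one, Matrix.one_mulVec, one_smul]
  · intro g k
    apply huniq
    change c (g * k) • v = (c g * c k) • v
    rw [← hc, map_mul, ← Matrix.mulVec_mulVec, hc k, Matrix.mulVec_smul, hc g, smul_smul, mul_comm]

theorem eigcov_of {n : ℕ} (T : MRep Γ E n) (v : Fin n → E) (hv : v ≠ 0)
    (h : ∀ g, ∃ c : E, v ᵥ* T g = c • v) : HasEigcov T := by
  choose c hc using h
  have huniq : ∀ a b : E, a • v = b • v → a = b := fun a b hab => smul_left_injective E hv hab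
  refine ⟨⟨⟨c, ?_⟩, ?_⟩, v, hv, hc⟩
  · apply huniq
    rw [← hc, map_one, Matrix.vecMul_one, one_smul]
  · intro g k
    apply huniq
    change c (g * k) • v = (c g * c k) • v
    rw [← hc, map_mul, ← Matrix.vecMul_vecMul, hc g, Matrix.smul_vecMul, hc k, smul_smul]

/-- a stable hyperplane gives a common covector -/
theorem eigcov_of_hyperplane {n : ℕ} (T : MRep Γ E n) (U : Submodule E (Fin n → E))
    (hU : ∀ g, ∀ u ∈ U, T g *ᵥ u ∈ U) (hd : Module.finrank E U + 1 = n) : HasEigcov T := by
  have hlt : U < ⊤ := by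
    rw [lt_top_iff_ne_top]
    rintro rfl
    rw [finrank_top, Module.finrank_fin_fun] at hd
    omega
  obtain ⟨f, hf, hUf⟩ := Submodule.exists_le_ker_of_lt_top U hlt
  have hker : U = LinearMap.ker f := by
    apply Submodule.eq_of_le_of_finrank_eq hUf
    have h1 := Module.Dual.finrank_ker_add_one_of_ne_zero hf
    rw [Module.finrank_fin_fun] at h1
    omega
  -- the covector
  set v : Fin n → E := fun i => f (Pi.single i 1) with hvdef
  have hfv : ∀ x : Fin n → E, f x = v ⬝ᵥ x := by
    intro x
    rw [LinearMap.pi_apply_eq_sum_univ f x]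
    simp only [smul_eq_mul, dotProduct, hvdef]
    refine Finset.sum_congr rfl fun i _ => ?_
    rw [mul_comm]
    congr 2
    funext j
    rw [Pi.single_apply]
    simp only [eq_comm]
  have hv : v ≠ 0 := by
    intro h0
    apply hf
    ext1 i
    ext
    have := congrFun h0 i
    simpa [hvdef] using this
  obtain ⟨w, hw⟩ : ∃ w, f w ≠ 0 := by
    by_contra hcon
    push Not at hcon
    exact hf (LinearMap.ext hcon)
  refine eigcov_of T v hv fun g => ?_
  refine ⟨f (T g *ᵥ w) / f w, ?_⟩
  have key : ∀ x : Fin n → E, (v ᵥ* T g) ⬝ᵥ x = (f (T g *ᵥ w) / f w) * f x := by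
    intro x
    rw [← Matrix.dotProduct_mulVec, ← hfv]
    have h1 : x - (f x / f w) • w ∈ U := by
      rw [hker, LinearMap.mem_ker, map_sub, map_smul, smul_eq_mul, div_mul_cancel₀ _ hw, sub_self]
    have h2 := hU g _ h1
    rw [hker, LinearMap.mem_ker, Matrix.mulVec_sub, Matrix.mulVec_smul, map_sub, map_smul,
      smul_eq_mul, sub_eq_zero] at h2
    rw [h2]
    field_simp
  funext i
  have := key (Pi.single i 1)
  rw [dotProduct_single_one] at this
  rw [this]
  rfl

theorem t_FOUR : S_FOUR := by
  intro Γ _ E _ S T hST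
  obtain ⟨U, hU, π, hπ, heq⟩ := hST
  have h1 : Module.finrank E (LinearMap.range π) + Module.finrank E (LinearMap.ker π)
      = Module.finrank E U := LinearMap.finrank_range_add_finrank_ker π
  rw [LinearMap.range_eq_top.2 hπ, finrank_top, Module.finrank_fin_fun] at h1
  have h2 : Module.finrank E U ≤ 4 := by
    have := Submodule.finrank_le U
    rwa [Module.finrank_fin_fun] at this
  by_cases h3 : Module.finrank E (LinearMap.ker π) = 0
  · right
    exact eigcov_of_hyperplane T U hU (by omega)
  · left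
    have h4 : Module.finrank E (LinearMap.ker π) = 1 := by omega
    have h5 : Module.finrank E ((LinearMap.ker π).map U.subtype) = 1 := by
      rw [← h4]
      exact Submodule.finrank_map_subtype_eq _ _
    obtain ⟨v, hv0, hv⟩ := finrank_eq_one_iff'.1 h5
    obtain ⟨v, u, hu, rfl⟩ := v
    have hu' : π u = 0 := hu
    refine eigvec_of T (U.subtype u) ?_ fun g => ?_
    · intro h0
      apply hv0
      ext1
      exact h0
    · have hmem : T g *ᵥ (U.subtype u) ∈ (LinearMap.ker π).map U.subtype := by
        refine ⟨⟨T g *ᵥ u.1, hU g _ u.2⟩, ?_, rfl⟩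
        change π _ = 0
        rw [heq g u, hu', Matrix.mulVec_zero]
      obtain ⟨c, hc⟩ := hv ⟨_, hmem⟩
      refine ⟨c, ?_⟩
      have := congrArg (fun z => (z.1 : Fin 4 → E)) hc
      exact this.symm

end Run7.h68.PD
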