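import Pool.Agent.Run7.h68.PD.FOUR

/-! Project PD (helper567), piece SYM: the symmetric square is irreducible. -/

set_option autoImplicit false

namespace Run7.h68.PD

open Matrix Run7.h567.GO Run7.h567.PD

variable {Γ : Type} [Group Γ] {E : Type} [Field E]

/-- a stable subspace of dimension one gives a common eigenvector -/
theorem eigvec_of_finrank_one {n : ℕ} (T : MRep Γ E n) (U : Submodule E (Fin n → E))
    (hU : ∀ g, ∀ u ∈ U, T g *ᵥ u ∈ U) (hd : Module.finrank E U = 1) : HasEigvec T := by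
  obtain ⟨v, hv0, hv⟩ := finrank_eq_one_iff'.1 hd
  refine eigvec_of T v.1 (fun h0 => hv0 (Subtype.ext h0)) fun g => ?_
  obtain ⟨c, hc⟩ := hv ⟨_, hU g v.1 v.2⟩
  exact ⟨c, (congrArg Subtype.val hc).symm⟩

/-- in dimension three a reducible representation has an eigenvector or an eigencovector -/
theorem eig_of_red (T : MRep Γ E 3) (U : Submodule E (Fin 3 → E))
    (hU : ∀ g, ∀ u ∈ U, T g *ᵥ u ∈ U) (h0 : U ≠ ⊥) (h1 : U ≠ ⊤) : HasEigvec T ∨ HasEigcov T := by
  have ha : 0 < Module.finrank E U := Nat.pos_of_ne_zero fun h => h0 (Submodule.finrank_eq_zero.1 h)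
  have hb : Module.finrank E U < 3 := by
    have := Submodule.finrank_lt h1
    rwa [Module.finrank_fin_fun] at this
  rcases Nat.lt_or_ge (Module.finrank E U) 2 with h | h
  · exact Or.inl (eigvec_of_finrank_one T U hU (by omega))
  · exact Or.inr (eigcov_of_hyperplane T U hU (by omega))

theorem char_mul_inv (ψ : Γ →* E) (g : Γ) : ψ g * ψ g⁻¹ = 1 := by
  rw [← map_mul, mul_inv_cancel, map_one]

theorem char_ne (ψ : Γ →* E) (g : Γ) : ψ g ≠ 0 := left_ne_zero_of_mul_eq_one (char_mul_inv ψ g)

theorem rep_mul_inv {n : ℕ} (V : MRep Γ E n) (g : Γ) : V g * V g⁻¹ = 1 := by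
  rw [← map_mul, mul_inv_cancel, map_one]

theorem rep_inv_mul {n : ℕ} (V : MRep Γ E n) (g : Γ) : V g⁻¹ * V g = 1 := by
  rw [← map_mul, inv_mul_cancel, map_one]

theorem det_ne (V : MRep Γ E 2) (g : Γ) : (V g).det ≠ 0 := char_ne (detR V) g

/-- a common eigencovector of the symmetric square gives a common eigenvector -/
theorem vec_of_cov [CharZero E] (V : MRep Γ E 2) (h : HasEigcov (sym2 V)) : HasEigvec (sym2 V) := by
  obtain ⟨ψ, v, hv, hψ⟩ := h
  have h2 : (2 : E) ≠ 0 := two_ne_zero
  refine eigvec_of _ ![2 * v 2, -v 1, 2 * v 0] ?_ fun g => ?_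
  · intro h0
    apply hv
    have e0 := congrFun h0 0
    have e1 := congrFun h0 1
    have e2 := congrFun h0 2
    simp at e0 e1 e2
    funext i
    fin_cases i
    · simpa using e2
    · simpa using e1
    · simpa using e0
  · -- use the inverse
    refine ⟨(V g).det ^ 2 * ψ g⁻¹, ?_⟩
    have e := hψ g
    have f0 := congrFun e 0
    have f1 := congrFun e 1
    have f2 := congrFun e 2
    have hk := char_mul_inv ψ g
    generalize ψ g⁻¹ = κ at hk ⊢
    have hs : sym2 V g = Run7.h567.PD.sq (V g) := rfl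
    rw [hs] at f0 f1 f2 ⊢
    simp [Run7.h567.PD.sq, Matrix.vecMul, dotProduct, Fin.sum_univ_three] at f0 f1 f2
    rw [Matrix.det_fin_two]
    funext i
    fin_cases i
    · simp [Run7.h567.PD.sq, Matrix.mulVec, dotProduct, Fin.sum_univ_three]
      linear_combination 2 * κ * (-(V g 0 0) ^ 2 * f2 + V g 0 0 * V g 0 1 * f1
        - (V g 0 1) ^ 2 * f0)
        - 2 * ((V g 0 0) ^ 2 * v 2 - V g 0 0 * V g 0 1 * v 1 + (V g 0 1) ^ 2 * v 0) * hk
    · simp [Run7.h567.PD.sq, Matrix.mulVec, dotProduct, Fin.sum_univ_three]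
      linear_combination κ * (-2 * V g 0 0 * V g 1 0 * f2
        + (V g 0 0 * V g 1 1 + V g 0 1 * V g 1 0) * f1 - 2 * V g 0 1 * V g 1 1 * f0)
        - (2 * V g 0 0 * V g 1 0 * v 2 - (V g 0 0 * V g 1 1 + V g 0 1 * V g 1 0) * v 1
          + 2 * V g 0 1 * V g 1 1 * v 0) * hk
    · simp [Run7.h567.PD.sq, Matrix.mulVec, dotProduct, Fin.sum_univ_three]
      linear_combination 2 * κ * (-(V g 1 0) ^ 2 * f2 + V g 1 0 * V g 1 1 * f1
        - (V g 1 1) ^ 2 * f0)
        - 2 * ((V g 1 0) ^ 2 * v 2 - V g 1 0 * V g 1 1 * v 1 + (V g 1 1) ^ 2 * v 0) * hk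

/-- proportional vectors -/
theorem par_iff (u v : Fin 2 → E) (hu : u ≠ 0) (h : u 0 * v 1 = u 1 * v 0) :
    ∃ c : E, v = c • u := by
  by_cases h0 : u 0 = 0
  · have h1 : u 1 ≠ 0 := by
      intro h1
      apply hu
      funext i
      fin_cases i
      · exact h0
      · exact h1
    have h2 : v 0 = 0 := by
      rw [h0, zero_mul] at h
      exact (mul_eq_zero.1 h.symm).resolve_left h1
    refine ⟨v 1 / u 1, ?_⟩
    funext i
    fin_cases i
    · simp [h0, h2]
    · simp [div_mul_cancel₀ _ h1]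
  · refine ⟨v 0 / u 0, ?_⟩
    funext i
    fin_cases i
    · simp [div_mul_cancel₀ _ h0]
    · simp
      field_simp
      linear_combination h

/-- no line is stable under a subgroup of finite index -/
theorem no_line (V : MRep Γ E 2) (hV : SI V) (H : Subgroup Γ) (hH : H.FiniteIndex)
    (u : Fin 2 → E) (hu : u ≠ 0) (h : ∀ g ∈ H, ∃ c : E, V g *ᵥ u = c • u) : False := by
  have hI := (hV H hH).2 (Submodule.span E {u}) (by
    intro g x hx
    obtain ⟨a, rfl⟩ := Submodule.mem_span_singleton.1 hx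
    obtain ⟨c, hc⟩ := h g.1 g.2
    change V g.1 *ᵥ (a • u) ∈ _
    rw [Matrix.mulVec_smul, hc]
    exact Submodule.smul_mem _ _ (Submodule.smul_mem _ _ (Submodule.mem_span_singleton_self u)))
  rcases hI with hI | hI
  · rw [Submodule.span_singleton_eq_bot] at hI
    exact hu hI
  · have h1 := finrank_span_singleton (K := E) hu
    rw [hI, finrank_top, Module.finrank_fin_fun] at h1
    omega

/-- the factorization of a nondegenerate binary quadratic form -/
theorem factor [CharZero E] [IsAlgClosed E] (x : Fin 3 → E) (hD : x 0 * x 2 - x 1 ^ 2 ≠ 0) :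
    ∃ (u w : Fin 2 → E) (k : E), k ≠ 0 ∧ u 0 * w 1 - u 1 * w 0 ≠ 0 ∧ ∀ v : Fin 2 → E,
      k * (x 2 * v 0 ^ 2 - 2 * x 1 * v 0 * v 1 + x 0 * v 1 ^ 2) =
        (u 0 * v 1 - u 1 * v 0) * (w 0 * v 1 - w 1 * v 0) := by
  obtain ⟨d, hd⟩ := IsAlgClosed.exists_pow_nat_eq (x 1 ^ 2 - x 0 * x 2) (n := 2) (by norm_num)
  have hd0 : d ≠ 0 := by
    rintro rfl
    apply hD
    linear_combination hd
  have h2 : (2 : E) ≠ 0 := two_ne_zero
  by_cases h0 : x 0 = 0
  · have h1 : x 1 ≠ 0 := by
      intro h1
      apply hD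
      rw [h0, h1]
      ring
    refine ⟨![0, 1], ![2 * x 1, x 2], 1, one_ne_zero, ?_, fun v => ?_⟩
    · simp [h1]
    · simp [h0]
      ring
  · refine ⟨![x 0, x 1 + d], ![x 0, x 1 - d], x 0, h0, ?_, fun v => ?_⟩
    · simp
      have : x 0 * (x 1 - d) - (x 1 + d) * x 0 = -(2 * x 0 * d) := by ring
      rw [this, neg_eq_zero]
      exact mul_ne_zero (mul_ne_zero h2 h0) hd0
    · simp
      linear_combination v 0 ^ 2 * hd

/-- the main case: an eigenvector of the symmetric square -/
theorem no_eigvec [CharZero E] [IsAlgClosed E] (V : MRep Γ E 2) (hV : SI V) :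
    ¬ HasEigvec (sym2 V) := by
  rintro ⟨ψ, x, hx, hψ⟩
  have e0 : ∀ g, (V g 0 0) ^ 2 * x 0 + 2 * V g 0 0 * V g 0 1 * x 1 + (V g 0 1) ^ 2 * x 2
      = ψ g * x 0 := by
    intro g
    have := congrFun (hψ g) 0
    have hs : sym2 V g = Run7.h567.PD.sq (V g) := rfl
    rw [hs] at this
    simp [Run7.h567.PD.sq, Matrix.mulVec, dotProduct, Fin.sum_univ_three] at this
    linear_combination this
  have e1 : ∀ g, V g 0 0 * V g 1 0 * x 0 + (V g 0 0 * V g 1 1 + V g 0 1 * V g 1 0) * x 1
      + V g 0 1 * V g 1 1 * x 2 = ψ g * x 1 := by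
    intro g
    have := congrFun (hψ g) 1
    have hs : sym2 V g = Run7.h567.PD.sq (V g) := rfl
    rw [hs] at this
    simp [Run7.h567.PD.sq, Matrix.mulVec, dotProduct, Fin.sum_univ_three] at this
    linear_combination this
  have e2 : ∀ g, (V g 1 0) ^ 2 * x 0 + 2 * V g 1 0 * V g 1 1 * x 1 + (V g 1 1) ^ 2 * x 2
      = ψ g * x 2 := by
    intro g
    have := congrFun (hψ g) 2
    have hs : sym2 V g = Run7.h567.PD.sq (V g) := rfl
    rw [hs] at this
    simp [Run7.h567.PD.sq, Matrix.mulVec, dotProduct, Fin.sum_univ_three] at this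
    linear_combination this
  have hmv : ∀ (g : Γ) (v : Fin 2 → E), (V g *ᵥ v) 0 = V g 0 0 * v 0 + V g 0 1 * v 1 ∧
      (V g *ᵥ v) 1 = V g 1 0 * v 0 + V g 1 1 * v 1 := by
    intro g v
    constructor <;> simp [Matrix.mulVec, dotProduct, Fin.sum_univ_two]
  by_cases hD : x 0 * x 2 - x 1 ^ 2 = 0
  · by_cases h0 : x 0 = 0
    · have h1 : x 1 = 0 := by
        have : x 1 ^ 2 = 0 := by rw [h0] at hD; linear_combination -hD
        exact pow_eq_zero_iff two_ne_zero |>.1 this
      have h2 : x 2 ≠ 0 := by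
        intro h2
        apply hx
        funext i
        fin_cases i
        · exact h0
        · exact h1
        · exact h2
      refine no_line V hV ⊤ inferInstance ![0, 1] ?_ fun g _ => ?_
      · intro h
        have := congrFun h 1
        simp at this
      · apply par_iff
        · intro h
          have := congrFun h 1
          simp at this
        · rw [(hmv g _).1, (hmv g _).2]
          simp
          have := e0 g
          rw [h0, h1] at this
          have h3 : (V g 0 1) ^ 2 * x 2 = 0 := by linear_combination this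
          exact ((pow_eq_zero_iff two_ne_zero).1 ((mul_eq_zero.1 h3).resolve_right h2)).symm
    · refine no_line V hV ⊤ inferInstance ![x 0, x 1] ?_ fun g _ => ?_
      · intro h
        have := congrFun h 0
        simp at this
        exact h0 this
      · apply par_iff
        · intro h
          have := congrFun h 0
          simp at this
          exact h0 this
        · rw [(hmv g _).1, (hmv g _).2]
          simp
          have hA : (V g 0 0 * x 0 + V g 0 1 * x 1) ^ 2 = ψ g * x 0 ^ 2 := by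
            linear_combination x 0 * e0 g - (V g 0 1) ^ 2 * hD
          have hB : (V g 0 0 * x 0 + V g 0 1 * x 1) * (V g 1 0 * x 0 + V g 1 1 * x 1)
              = ψ g * x 0 * x 1 := by
            linear_combination x 0 * e1 g - (V g 0 1) * (V g 1 1) * hD
          have hC : V g 0 0 * x 0 + V g 0 1 * x 1 ≠ 0 := by
            intro hC
            rw [hC] at hA
            have : ψ g * x 0 ^ 2 = 0 := by linear_combination -hA
            exact mul_ne_zero (char_ne ψ g) (pow_ne_zero 2 h0) this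
          apply mul_left_cancel₀ hC
          linear_combination x 0 * hB - x 1 * hA
  · obtain ⟨u, w, k, hk, hD', hQ⟩ := factor x hD
    have hu : u ≠ 0 := by
      rintro rfl
      simp at hD'
    have hw : w ≠ 0 := by
      rintro rfl
      simp at hD'
    have hQu : x 2 * u 0 ^ 2 - 2 * x 1 * u 0 * u 1 + x 0 * u 1 ^ 2 = 0 := by
      have := hQ u
      have h1 : k * (x 2 * u 0 ^ 2 - 2 * x 1 * u 0 * u 1 + x 0 * u 1 ^ 2) = 0 := by
        rw [this]; ring
      exact (mul_eq_zero.1 h1).resolve_left hk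
    have hV1 : ∀ g, (∃ c : E, V g *ᵥ u = c • u) ∨ ∃ c : E, V g *ᵥ u = c • w := by
      intro g
      set v := V g *ᵥ u with hv
      have hv0 : v 0 = V g 0 0 * u 0 + V g 0 1 * u 1 := (hmv g u).1
      have hv1 : v 1 = V g 1 0 * u 0 + V g 1 1 * u 1 := (hmv g u).2
      have h1 : ψ g * (x 2 * v 0 ^ 2 - 2 * x 1 * v 0 * v 1 + x 0 * v 1 ^ 2) = 0 := by
        rw [hv0, hv1]
        linear_combination (V g 0 0 * V g 1 1 - V g 0 1 * V g 1 0) ^ 2 * hQu
          - (V g 0 0 * u 0 + V g 0 1 * u 1) ^ 2 * e2 g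
          + 2 * (V g 0 0 * u 0 + V g 0 1 * u 1) * (V g 1 0 * u 0 + V g 1 1 * u 1) * e1 g
          - (V g 1 0 * u 0 + V g 1 1 * u 1) ^ 2 * e0 g
      have h2 := (mul_eq_zero.1 h1).resolve_left (char_ne ψ g)
      have h3 := hQ v
      rw [h2, mul_zero] at h3
      rcases mul_eq_zero.1 h3.symm with h | h
      · exact Or.inl (par_iff u v hu (sub_eq_zero.1 h))
      · exact Or.inr (par_iff w v hw (sub_eq_zero.1 h))
    have hinv : ∀ (g : Γ) (c : E), V g *ᵥ u = c • u → ∃ c' : E, V g⁻¹ *ᵥ u = c' • u := by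
      intro g c hc
      have h1 : V g⁻¹ *ᵥ (V g *ᵥ u) = u := by
        rw [Matrix.mulVec_mulVec, rep_inv_mul, Matrix.one_mulVec]
      have hc0 : c ≠ 0 := by
        rintro rfl
        rw [hc, zero_smul, Matrix.mulVec_zero] at h1
        exact hu h1.symm
      rw [hc, Matrix.mulVec_smul] at h1
      refine ⟨c⁻¹, ?_⟩
      rw [← h1, smul_smul, h1, inv_mul_cancel₀ hc0, one_smul]
    let H : Subgroup Γ :=
      { carrier := {g | ∃ c : E, V g *ᵥ u = c • u}
        mul_mem' := by
          rintro g h ⟨c, hc⟩ ⟨d, hd⟩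
          refine ⟨d * c, ?_⟩
          rw [map_mul, ← Matrix.mulVec_mulVec, hd, Matrix.mulVec_smul, hc, smul_smul]
        one_mem' := ⟨1, by rw [map_one, Matrix.one_mulVec, one_smul]⟩
        inv_mem' := by
          rintro g ⟨c, hc⟩
          exact hinv g c hc }
    have hHmem : ∀ g, g ∈ H ↔ ∃ c : E, V g *ᵥ u = c • u := fun g => Iff.rfl
    have hfin : H.FiniteIndex := by
      by_cases hall : ∀ g, g ∈ H
      · have : H = ⊤ := by
          rw [Subgroup.eq_top_iff']
          exact hall
        rw [this]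
        infer_instance
      · push Not at hall
        obtain ⟨a, ha⟩ := hall
        obtain ⟨b, hb⟩ : ∃ c : E, V a *ᵥ u = c • w := by
          rcases hV1 a with h | h
          · exact absurd h ha
          · exact h
        have hb0 : b ≠ 0 := by
          rintro rfl
          rw [zero_smul] at hb
          apply hu
          have h1 : V a⁻¹ *ᵥ (V a *ᵥ u) = u := by
            rw [Matrix.mulVec_mulVec, rep_inv_mul, Matrix.one_mulVec]
          rw [← h1, hb, Matrix.mulVec_zero]
        have hcos : ∀ g, g ∈ H ∨ a⁻¹ * g ∈ H := by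
          intro g
          rcases hV1 g with h | ⟨c, hc⟩
          · exact Or.inl h
          · right
            refine ⟨c * b⁻¹, ?_⟩
            have h1 : w = b⁻¹ • (V a *ᵥ u) := by
              rw [hb, smul_smul, inv_mul_cancel₀ hb0, one_smul]
            rw [map_mul, ← Matrix.mulVec_mulVec, hc, h1, smul_smul, Matrix.mulVec_smul,
              Matrix.mulVec_mulVec, rep_inv_mul, Matrix.one_mulVec]
        have hsurj : Function.Surjective
            (fun t : Bool => (QuotientGroup.mk (if t then (1 : Γ) else a) : Γ ⧸ H)) := by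
          intro y
          obtain ⟨g, rfl⟩ := QuotientGroup.mk_surjective y
          rcases hcos g with h | h
          · refine ⟨true, ?_⟩
            simp only [if_true]
            rw [QuotientGroup.eq]
            simpa using h
          · refine ⟨false, ?_⟩
            simp only [Bool.false_eq_true, if_false]
            rw [QuotientGroup.eq]
            exact h
        have : Finite (Γ ⧸ H) := Finite.of_surjective _ hsurj
        exact Subgroup.finiteIndex_of_finite_quotient
    exact no_line V hV H hfin u hu fun g hg => hg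

theorem t_SYM : S_SYM := by
  intro Γ _ E _ _ _ V χ hV
  refine ⟨by norm_num, fun U hU => ?_⟩
  have hU' : ∀ g, ∀ u ∈ U, sym2 V g *ᵥ u ∈ U := by
    intro g u hu
    have h1 := U.smul_mem (χ g⁻¹) (hU g u hu)
    have h2 : χ g⁻¹ • (tw χ (sym2 V) g *ᵥ u) = sym2 V g *ᵥ u := by
      change χ g⁻¹ • ((χ g • sym2 V g) *ᵥ u) = _
      rw [Matrix.smul_mulVec, smul_smul, mul_comm, char_mul_inv, one_smul]
    rwa [h2] at h1
  by_contra hcon
  push Not at hcon
  rcases eig_of_red (sym2 V) U hU' hcon.1 hcon.2 with h | h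
  · exact no_eigvec V hV h
  · exact no_eigvec V hV (vec_of_cov V h)

end Run7.h68.PD
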